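import Pool.Agent.helper13.U4.SpecY

set_option autoImplicit false

namespace Pool.Agent.U4

open Pool.Agent.UL

theorem GEN (h1 : ZWN_stmt) : GEN_stmt := by
  intro k q h v F ρ σ hP hF hρ hσ hy h02 h03 h01 h13
  have hh4 : 4 ≤ h := by
    have h2 := hP.hk
    have h3 : 2 ^ 2 ≤ 2 ^ k := Nat.pow_le_pow_right (by norm_num) h2
    have h4 := hP.hh
    omega
  have hvh : 15 * h ≤ v + 1 := by
    have h2 := hP.hq
    have h3 : h * 7 ≤ h * q := Nat.mul_le_mul_left h h2
    have h4 : v + 1 = 2 * (h * q) + h := by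
      have := hP.hv
      rw [this, mul_assoc]
    omega
  have hvo : v % 2 = 1 := by
    have h2 := hP.hk
    have h3 : 2 ∣ h := by
      rw [hP.hh]
      exact dvd_pow_self 2 (by omega)
    have h4 : v + 1 = 2 * (h * q) + h := by
      have := hP.hv
      rw [this, mul_assoc]
    omega
  have hS0 : (v : ℤ) * 33 ≤ (v : ℤ) * ρ := by
    have h2 : (33 : ℤ) ≤ ρ := by
      have : 33 ≤ ρ := by omega
      exact_mod_cast this
    exact mul_le_mul_of_nonneg_left h2 (Int.natCast_nonneg v)
  obtain ⟨S, hS⟩ : ∃ S : ℤ, S = (v : ℤ) * ρ + 2 * σ := ⟨_, rfl⟩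
  rw [← hS] at hy h02 h03 h01 h13
  have hS1 : 3 * (v : ℤ) + 2 ≤ S := by omega
  obtain ⟨m, ha, hb, hm⟩ := h1 v F (by omega) hF (S - 3 * v - 2) (by omega)
  obtain ⟨n, hn⟩ : ∃ n : ℕ, (n : ℤ) = S - m := ⟨(S - m).toNat, by omega⟩
  have hmn : m = S - n := by omega
  have hn1 : v + 1 ≤ n := by omega
  have hn2 : n ≤ 3 * v + 2 := by omega
  rcases Nat.even_or_odd' n with ⟨c, hc | hc⟩
  · by_cases hc1 : c < v
    · have h2 := hy c hc1 0 (by omega) (by omega)
      unfold yF at h2
      have e : S - (v : ℤ) * ((0 : ℕ) : ℤ) - 2 * (c : ℤ) = m := by push_cast; omega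
      rw [e, hm] at h2
      exact Bool.noConfusion h2
    · obtain ⟨t, ht⟩ : ∃ t : ℕ, c = v + t := ⟨c - v, by omega⟩
      have h2 : yF v F S t 2 = false := by
        by_cases ht0 : t = 0
        · rw [ht0]; exact h02
        · exact hy t (by omega) 2 (by omega) (by omega)
      unfold yF at h2
      have e : S - (v : ℤ) * ((2 : ℕ) : ℤ) - 2 * (t : ℤ) = m := by push_cast; omega
      rw [e, hm] at h2
      exact Bool.noConfusion h2
  · obtain ⟨t, ht⟩ : ∃ t : ℕ, n = v + 2 * t := ⟨(n - v) / 2, by omega⟩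
    by_cases ht1 : t < v
    · have h2 : yF v F S t 1 = false := by
        by_cases ht0 : t = 0
        · rw [ht0]; exact h01
        · exact hy t (by omega) 1 (by omega) (by omega)
      unfold yF at h2
      have e : S - (v : ℤ) * ((1 : ℕ) : ℤ) - 2 * (t : ℤ) = m := by push_cast; omega
      rw [e, hm] at h2
      exact Bool.noConfusion h2
    · obtain ⟨u, hu⟩ : ∃ u : ℕ, t = v + u := ⟨t - v, by omega⟩
      have hu1 : u = 0 ∨ u = 1 := by omega
      have h2 : yF v F S u 3 = false := by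
        rcases hu1 with h | h
        · rw [h]; exact h03
        · rw [h]; exact h13
      unfold yF at h2
      have e : S - (v : ℤ) * ((3 : ℕ) : ℤ) - 2 * (u : ℤ) = m := by push_cast; omega
      rw [e, hm] at h2
      exact Bool.noConfusion h2

end Pool.Agent.U4
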