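import Pool.Agent.helper13.U4.Spec

set_option autoImplicit false

namespace Pool.Agent.U4

open Pool.Agent.UL

theorem HC1_par {k q h v : ℕ} (hP : Par k q h v) :
    4 ≤ h ∧ h % 4 = 0 ∧ 15 * h ≤ v + 1 ∧ v = (2 * q) * h + (h - 1) ∧ 2 * 2 ^ (k - 1) = h := by
  have h2 := hP.hk
  have hh := hP.hh
  have hq := hP.hq
  have hv := hP.hv
  have e2 : (4 : ℕ) = 2 ^ 2 := by norm_num
  have h4 : 4 ∣ h := by
    rw [hh, e2]
    exact pow_dvd_pow 2 h2
  have hpos : 0 < h := by rw [hh]; positivity
  have h4' : 4 ≤ h := Nat.le_of_dvd hpos h4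
  have h3 : h * 7 ≤ h * q := Nat.mul_le_mul_left h hq
  have h5 : v + 1 = 2 * (h * q) + h := by rw [hv, mul_assoc]
  refine ⟨h4', Nat.mod_eq_zero_of_dvd h4, by omega, ?_, ?_⟩
  · have h6 : 2 * q * h = 2 * (h * q) := by ring
    omega
  · rw [hh, ← pow_succ']
    congr 1
    omega

/-- the low rows for `1 ≤ t < h` -/
theorem HC1_blk (hG : GPW_stmt) {h t r : ℕ} (ht0 : 1 ≤ t) (hr : 2 * t < r + 1) (hth : t < h) (hrh : 2 * h ≤ r + 3) :
    blk t r = false := by
  obtain ⟨-, -, -, g4, -, -, -⟩ := hG
  have hl1 : 2 ^ Nat.log 2 t ≤ t := Nat.pow_log_le_self 2 (by omega)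
  have hl0 : 0 < 2 ^ Nat.log 2 t := by positivity
  unfold blk
  rw [Bool.or_eq_false_iff, Bool.and_eq_false_iff]
  constructor
  · by_contra hc
    have := g4 _ _ (Bool.eq_true_of_not_eq_false hc)
    omega
  · by_cases h5 : 2 * 2 ^ Nat.log 2 t ≤ r + 1
    · right
      by_contra hc
      have := g4 _ _ (Bool.eq_true_of_not_eq_false hc)
      omega
    · left
      simpa using h5

theorem HC1 (h1 : GPW_stmt) (h2 : LOW_stmt) (h3 : COL_stmt) : HC1_stmt := by
  intro k q h v x hP hX
  obtain ⟨hh4, hm4, hvh, hveq, hk1⟩ := HC1_par hP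
  obtain ⟨l1, l2, l3⟩ := h2 k q h v x hP hX
  have hG := h1
  obtain ⟨g1, g2, g3, g4, g5, g6, g7⟩ := hG
  have hkk := hP.hk
  have hhk := hP.hh
  -- column -3
  have colM3 : Col h v (fun t => x t (2 * h - 3)) (cM3 h) := by
    intro B d hd hBd
    show x (B * h + d) (2 * h - 3) = true ↔ d + 1 = h
    rcases Nat.eq_zero_or_pos B with hB | hB
    · subst hB
      rw [Nat.zero_mul, Nat.zero_add] at hBd ⊢
      rcases Nat.eq_zero_or_pos d with hd0 | hd0
      · subst hd0
        rw [l1 _ (by omega)]
        unfold p0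
        rw [decide_eq_true_iff]
        omega
      · rw [l2 d hd0 hBd _ (by omega)]
        by_cases hdh : d + 1 = h
        · refine ⟨fun _ => hdh, fun _ => ?_⟩
          have hlog : Nat.log 2 d = k - 1 := by
            rw [Nat.log_eq_iff (Or.inl (by omega))]
            rw [pow_succ']
            omega
          unfold blk
          rw [hlog, Bool.or_eq_true, Bool.and_eq_true]
          right
          refine ⟨by rw [decide_eq_true_iff]; omega, ?_⟩
          have e1 : d - 2 ^ (k - 1) = 2 ^ (k - 1) - 1 := by omega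
          have e2 : 2 * h - 3 + 1 - 2 * 2 ^ (k - 1) = h - 2 := by omega
          rw [e1, e2, g2 (k - 1) (by omega)]
          omega
        · refine ⟨fun hc => ?_, fun hc => absurd hc hdh⟩
          rw [HC1_blk h1 (h := h) hd0 (by omega) (by omega) (by omega)] at hc
          exact Bool.noConfusion hc
    · have hBh : h ≤ B * h + d := le_trans (Nat.le_mul_of_pos_left h hB) (Nat.le_add_right _ _)
      rw [l3 _ hBh hBd _ (by omega)]
      have hmod : (B * h + d) % h = d := by
        rw [Nat.mul_comm, Nat.mul_add_mod, Nat.mod_eq_of_lt hd]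
      rw [hmod]
      constructor
      · intro hc
        have := g4 _ _ hc
        omega
      · intro hc
        have e1 : d = 2 ^ k - 1 := by omega
        rw [e1, g2 k (by omega)]
        omega
  have colM2 : Col h v (fun t => x t (2 * h - 2)) (cM2 h) := by
    intro B d hd hBd
    show x (B * h + d) (2 * h - 2) = true ↔ (B = 0 ∧ d = 0) ∨ (1 ≤ B ∧ d + 1 = h)
    rcases Nat.eq_zero_or_pos B with hB | hB
    · subst hB
      rw [Nat.zero_mul, Nat.zero_add] at hBd ⊢
      rcases Nat.eq_zero_or_pos d with hd0 | hd0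
      · subst hd0
        rw [l1 _ (by omega)]
        unfold p0
        rw [decide_eq_true_iff]
        omega
      · rw [l2 d hd0 hBd _ (by omega), HC1_blk h1 (h := h) hd0 (by omega) (by omega) (by omega)]
        constructor
        · intro hc
          exact Bool.noConfusion hc
        · intro hc
          omega
    · have hBh : h ≤ B * h + d := le_trans (Nat.le_mul_of_pos_left h hB) (Nat.le_add_right _ _)
      rw [l3 _ hBh hBd _ (by omega)]
      have hmod : (B * h + d) % h = d := by
        rw [Nat.mul_comm, Nat.mul_add_mod, Nat.mod_eq_of_lt hd]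
      rw [hmod]
      constructor
      · intro hc
        have := g4 _ _ hc
        omega
      · intro hc
        have e1 : d = 2 ^ k - 1 := by omega
        rw [e1, g2 k (by omega)]
        omega
  have colM1 : Col h v (fun t => x t (2 * h - 1)) cM1 := by
    refine h3 h v (fun t => x t (2 * h - 3)) (fun t => x t (2 * h - 2)) (fun t => x t (2 * h - 1)) (cM3 h) (cM2 h) cM1
      (by omega) colM3 colM2 ?_ ?_ ?_ ?_
    · intro t ht
      have e := hX.s2 t ht (2 * h - 3)
      have e1 : 2 * h - 3 + 2 = 2 * h - 1 := by omega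
      have e2 : 2 * h - 3 + 1 = 2 * h - 2 := by omega
      rw [e1, e2] at e
      exact e
    · show x 0 (2 * h - 1) = true ↔ cM1 0 0
      rw [l1 _ (by omega)]
      unfold p0 cM1
      rw [decide_eq_true_iff]
      omega
    · intro B d hd
      unfold cM1 E1 cM2 cM3
      omega
    · intro B
      unfold cM1 E1 cM2 cM3
      omega
  have col0 : Col h v (fun t => x t (2 * h)) c0 := by
    refine h3 h v (fun t => x t (2 * h - 2)) (fun t => x t (2 * h - 1)) (fun t => x t (2 * h)) (cM2 h) cM1 c0
      (by omega) colM2 colM1 ?_ ?_ ?_ ?_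
    · intro t ht
      have e := hX.s2 t ht (2 * h - 2)
      have e1 : 2 * h - 2 + 2 = 2 * h := by omega
      have e2 : 2 * h - 2 + 1 = 2 * h - 1 := by omega
      rw [e1, e2] at e
      exact e
    · show x 0 (2 * h) = true ↔ c0 0 0
      rw [l1 _ (by omega)]
      unfold p0 c0
      rw [decide_eq_true_iff]
      omega
    · intro B d hd
      unfold c0 E1 cM2 cM1
      omega
    · intro B
      unfold c0 E1 cM2 cM1
      omega
  have col1 : Col h v (fun t => x t (2 * h + 1)) c1 := by
    refine h3 h v (fun t => x t (2 * h - 1)) (fun t => x t (2 * h)) (fun t => x t (2 * h + 1)) cM1 c0 c1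
      (by omega) colM1 col0 ?_ ?_ ?_ ?_
    · intro t ht
      have e := hX.s2 t ht (2 * h - 1)
      have e1 : 2 * h - 1 + 2 = 2 * h + 1 := by omega
      have e2 : 2 * h - 1 + 1 = 2 * h := by omega
      rw [e1, e2] at e
      exact e
    · show x 0 (2 * h + 1) = true ↔ c1 0 0
      have e := hX.w (2 * h - 1)
      have e1 : 2 * h - 1 + 2 = 2 * h + 1 := by omega
      rw [e1] at e
      rw [← e]
      have hq := hP.hq
      have h6 := colM1 (2 * q) (h - 1) (by omega) (by omega)
      have h7 : (fun t => x t (2 * h - 1)) (2 * q * h + (h - 1)) = x v (2 * h - 1) := by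
        show x (2 * q * h + (h - 1)) (2 * h - 1) = x v (2 * h - 1)
        rw [← hveq]
      rw [h7] at h6
      rw [h6]
      unfold cM1 c1
      omega
    · intro B d hd
      unfold c1 E1 c0 cM1
      omega
    · intro B
      unfold c1 E1 c0 cM1
      omega
  exact ⟨colM3, colM2, colM1, col0, col1⟩

end Pool.Agent.U4
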