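import Pool.Agent.helper13.U4.Spec

set_option autoImplicit false

namespace Pool.Agent.U4

open Pool.Agent.UL

theorem PER_aux (v : ℕ) (F : ℤ → Bool) (hF : IsF v F) (a a' : ℕ) (ha : a < a')
    (hw : ∀ i < 2 * v + 2, F ((a : ℤ) + (i : ℕ)) = F ((a' : ℤ) + (i : ℕ))) (m : ℕ) :
    a ≤ m → F ((m : ℤ) + ((a' - a : ℕ) : ℤ)) = F m := by
  induction m using Nat.strong_induction_on with
  | _ m ih =>
    intro ham
    by_cases hm : m < a + (2 * v + 2)
    · have h := hw (m - a) (by omega)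
      have e1 : (a : ℤ) + ((m - a : ℕ) : ℤ) = m := by omega
      have e2 : (a' : ℤ) + ((m - a : ℕ) : ℤ) = (m : ℤ) + ((a' - a : ℕ) : ℤ) := by omega
      rw [e1, e2] at h
      exact h.symm
    · have e0 := hF.recF (m : ℤ) (by omega)
      have e1 := hF.recF ((m : ℤ) + ((a' - a : ℕ) : ℤ)) (by omega)
      have h1 := ih (m - 2) (by omega) (by omega)
      have h2 := ih (m - v - 2) (by omega) (by omega)
      have h3 := ih (m - 2 * v - 2) (by omega) (by omega)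
      have c1 : ((m - 2 : ℕ) : ℤ) = (m : ℤ) - 2 := by omega
      have c2 : ((m - v - 2 : ℕ) : ℤ) = (m : ℤ) - v - 2 := by omega
      have c3 : ((m - 2 * v - 2 : ℕ) : ℤ) = (m : ℤ) - 2 * v - 2 := by omega
      rw [c1] at h1
      rw [c2] at h2
      rw [c3] at h3
      have d1 : (m : ℤ) + ((a' - a : ℕ) : ℤ) - 2 = (m : ℤ) - 2 + ((a' - a : ℕ) : ℤ) := by ring
      have d2 : (m : ℤ) + ((a' - a : ℕ) : ℤ) - v - 2 = (m : ℤ) - v - 2 + ((a' - a : ℕ) : ℤ) := by ring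
      have d3 : (m : ℤ) + ((a' - a : ℕ) : ℤ) - 2 * v - 2 = (m : ℤ) - 2 * v - 2 + ((a' - a : ℕ) : ℤ) := by ring
      rw [e1, d1, d2, d3, h1, h2, h3, ← e0]

theorem PER : PER_stmt := by
  intro v F hF
  obtain ⟨a, b, hab, hW⟩ := Finite.exists_ne_map_eq_of_infinite
    (fun a : ℕ => (fun i : Fin (2 * v + 2) => F ((a : ℤ) + ((i : ℕ) : ℤ))))
  have key : ∀ a b : ℕ, a < b → (∀ i < 2 * v + 2, F ((a : ℤ) + (i : ℕ)) = F ((b : ℤ) + (i : ℕ))) →
      ∃ K P : ℕ, 0 < P ∧ ∀ m : ℕ, K ≤ m → F ((m : ℤ) + P) = F m := by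
    intro a b hab hw
    exact ⟨a, b - a, by omega, fun m hm => PER_aux v F hF a b hab hw m hm⟩
  rcases lt_or_gt_of_ne hab with h | h
  · exact key a b h fun i hi => congrFun hW ⟨i, hi⟩
  · exact key b a h fun i hi => (congrFun hW ⟨i, hi⟩).symm

end Pool.Agent.U4
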